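import Mathlib
import Pool.Agent.Helper9.GraphDefs
import Pool.Agent.Helper9.GraphMain

set_option autoImplicit false

namespace Pool.Agent.Results.MP_2a05c8_ag.FrobeniusGraphs

open Polynomial Pool.Agent.Helper9 Pool.Agent.Helper10.Neat
open scoped TensorProduct

/-- Let `P` be a monic integral polynomial whose complex roots have absolute values `q ^ (w / 2)`,
`w` a natural number depending on the root, and satisfy only the trivial multiplicative relations.
Let `N ≥ 1` be such that `z ^ N = |z| ^ N` for the supersingular roots `z` of `P`.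
Let `F` be an endomorphism of a finite-dimensional vector space `V` over an algebraically closed
field of characteristic zero whose eigenvalues are roots of `P`, and let `A n`, `n = 0, 1, 2, ...`,
be subspaces of `V^{⊗ n}` closed under permutations of the factors and under tensor products.
Suppose that
* `A 2` is stable under `F ⊗ 1` (the graph of Frobenius is algebraic);
* `A 2` contains classes multiplied by powers of `q` by `F ⊗ F` whose sum is nondegenerate (the
  diagonal is algebraic);
* for `n ≤ 2` the Tate classes `x 0 ⊗ ... ⊗ x (n - 1)` of `F ^ N`, the `x j` being in the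
  generalised eigenspaces of `F` for supersingular eigenvalues, belong to `A n`;
* the generalised eigenspaces of `F` for the other eigenvalues are irreducible under the algebraic
  correspondences preserving them (for instance, the eigenvalues are simple).
Then `A n` contains all generalised Tate classes of `F ^ N`, for all `n`. -/
theorem result (q : ℕ) (hq : 1 < q) (P : ℤ[X]) (hP : P.Monic)
    (hW : ∀ z : ℂ, aeval z P = 0 → ∃ w : ℕ, ‖z‖ ^ 2 = (q : ℝ) ^ w) (hneat : IsNeat P)
    (N : ℕ) (hN : 0 < N) (hss : ∀ z : ℂ, aeval z P = 0 → IsSS z → z ^ N = (‖z‖ : ℂ) ^ N)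
    {L V : Type*} [Field L] [CharZero L] [IsAlgClosed L] [AddCommGroup V] [Module L V]
    [FiniteDimensional L V] (F : V →ₗ[L] V)
    (hF : ∀ c : L, Module.End.HasEigenvalue F c → aeval c P = 0)
    (A : ∀ n : ℕ, Submodule L (⨂[L]^n V)) (hA : IsTensorClosed A)
    (hgraph : IsCorr A F) (hdual : HasDuality q F A)
    (hSS : ∀ n ≤ 2, ∀ (c : Fin n → L) (x : Fin n → V) (i : ℕ),
      (∀ j, x j ∈ Module.End.maxGenEigenspace F (c j)) →
      (∀ j, ∃ w : ℕ, c j ^ (2 * N) = (q : L) ^ (w * N)) →
      (∏ j, c j) ^ N = (q : L) ^ (i * N) → PiTensorProduct.tprod L x ∈ A n)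
    (hirr : ∀ c : L, Module.End.HasEigenvalue F c →
      (∀ w : ℕ, c ^ (2 * N) ≠ (q : L) ^ (w * N)) →
      IsIrredCorr A (Module.End.maxGenEigenspace F c)) :
    ∀ n i, genTate (q ^ N) (F ^ N) n i ≤ A n :=
  Graph.main q hq P hP hW hneat N hN hss F hF A hA hgraph hdual hSS hirr

end Pool.Agent.Results.MP_2a05c8_ag.FrobeniusGraphs
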